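import Pool.Agent.V11307.QSignThm

set_option autoImplicit false

/-!
# The shift relation `r ↦ r + m` for the exponent `f_{p,m,r}`

For every admissible triple, the unique exponents `f = f_{p,m,r}` and `g = f_{p,m,r+m}` exist, and
`g = -f` if `p ∣ r`, `g = f - r` if `p ∤ r`.
-/

namespace Pool.Agent.Results.MP_20c673_nt.Shift

open Finset V11307.QSign

/-- `A ≡ B (mod [p]²)` for polynomials in `x` over `ℚ(q)`: the numerator (in lowest terms) of every
coefficient of `A - B` is divisible by `[p]²`. -/
def CongSq (p : ℕ) (A B : Polynomial (RatFunc ℚ)) : Prop :=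
  ∀ i, qInt p ^ 2 ∣ ((A - B).coeff i).num

/-- `f` is the unique integer exponent `f_{p,m,r}` in the congruence
`S_{p,m,r}(x) ≡ (-1)^⟨-r/m⟩ q^f T_{p,m,r}(x) (mod [p]²)`. -/
def IsExponent (p m r : ℕ) (f : ℤ) : Prop :=
  ∀ g : ℤ, CongSq p (S p m r) (Polynomial.C ((-1) ^ residue p m r * q ^ g) * T p m r) ↔ g = f

theorem result (p m r : ℕ) (h : Admissible p m r) :
    ∃ f g : ℤ, IsExponent p m r f ∧ IsExponent p m (r + m) g ∧
      (p ∣ r → g = -f) ∧ (¬ p ∣ r → g = f - r) := by
  obtain ⟨hp, hp2, hm, hr, _, hpm⟩ := h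
  have key : ∀ r : ℕ, IsExponent p m r (expo p m r) := by
    intro r f
    constructor
    · intro hf
      have h0 := hf 0
      rw [qInt_eq hp] at h0
      exact unique_of_coeff hp hp2 hm hpm (V11307.Q.I_of_num_dvd hp.pos two_pos h0)
    · rintro rfl i
      rw [qInt_eq hp]
      exact (main_cong hp hp2 hm hpm i).num_dvd hp.pos
  refine ⟨_, _, key r, key (r + m), ?_, ?_⟩
  · intro hpr
    have e1 : residue p m r = 0 := residue_unique hp hpm hp.pos (by simpa using hpr)
    have e2 : residue p m (r + m) = p - 1 := by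
      apply residue_unique hp hpm (Nat.sub_lt hp.pos one_pos)
      obtain ⟨t, rfl⟩ := hpr
      refine ⟨t + m, ?_⟩
      have := hp.one_lt
      zify [this.le]
      ring
    obtain ⟨t, ht⟩ := hp.odd_of_ne_two hp2
    rw [expo, expo, e1, e2]
    unfold V11307.Q.ex
    have h1 : (p - 1) / 2 = t := by omega
    have h2 : (p - 1) * (p - 1 - 1) / 2 = t * (2 * t - 1) := by
      rw [ht, show 2 * t + 1 - 1 = 2 * t by omega, mul_assoc]
      exact Nat.mul_div_cancel_left _ two_pos
    have ht0 : 1 ≤ t := by
      have := hp.two_le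
      omega
    have h3 : ((2 * t - 1 : ℕ) : ℤ) = 2 * t - 1 := by
      rw [Nat.cast_sub (by omega)]; push_cast; ring
    rw [h1, h2]
    simp only [Nat.zero_mul, Nat.zero_div, Nat.cast_mul, Nat.cast_zero, h3, Nat.cast_add]
    rw [ht]
    simp only [Nat.add_sub_cancel]
    push_cast
    ring
  · intro hpr
    obtain ⟨a1, a2⟩ := residue_spec (r := r) hp hpm
    rcases Nat.eq_zero_or_pos (residue p m r) with h0 | h0
    · rw [h0] at a1
      exact absurd (by simpa using a1) hpr
    · obtain ⟨a, ha⟩ := Nat.exists_eq_succ_of_ne_zero h0.ne'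
      have e2 : residue p m (r + m) = a := by
        apply residue_unique hp hpm
        · have : residue p m r < p := by
            have := Fact.mk hp
            exact ZMod.val_lt _
          omega
        · rw [ha] at a1
          convert a1 using 1
          rw [Nat.succ_eq_add_one]; ring
      rw [expo, expo, e2, ha, Nat.succ_eq_add_one, V11307.Q.ex_succ]
      ring

end Pool.Agent.Results.MP_20c673_nt.Shift
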