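import Pool.Agent.V11307.QSignThm

set_option autoImplicit false

/-!
# Existence, uniqueness and value of the exponent `f_{p,m,r}`

For every admissible triple `(p, m, r)` there is exactly one integer `f` with
`S_{p,m,r}(x) ≡ (-1)^⟨-r/m⟩ q^f T_{p,m,r}(x) (mod [p]²)`, and with `a = ⟨-r/m⟩_p` it is
`f = a r + m a (a-1)/2 - (r + a m)(p-1)/2`.
-/

namespace Pool.Agent.Results.MP_20c673_nt.SignPower

open Finset V11307.QSign

/-- `A ≡ B (mod [p]²)` for polynomials in `x` over `ℚ(q)`: the numerator (in lowest terms) of every
coefficient of `A - B` is divisible by `[p]²`. -/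
def CongSq (p : ℕ) (A B : Polynomial (RatFunc ℚ)) : Prop :=
  ∀ i, qInt p ^ 2 ∣ ((A - B).coeff i).num

/-- The congruence of the question with exponent `f`. -/
def Holds (p m r : ℕ) (f : ℤ) : Prop :=
  CongSq p (S p m r) (Polynomial.C ((-1) ^ residue p m r * q ^ f) * T p m r)

theorem result (p m r : ℕ) (h : Admissible p m r) :
    (∃! f : ℤ, Holds p m r f) ∧
    ∀ f : ℤ, Holds p m r f ↔
      2 * f = 2 * residue p m r * r + m * (residue p m r * (residue p m r - 1))
        - (r + residue p m r * m) * (p - 1) := by
  obtain ⟨hp, hp2, hm, hr, _, hpm⟩ := h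
  have hval : ∀ f : ℤ, 2 * f = 2 * residue p m r * r + m * (residue p m r * (residue p m r - 1))
        - (r + residue p m r * m) * (p - 1) ↔ f = expo p m r := by
    intro f
    have h1 : 2 * expo p m r = 2 * residue p m r * r +
        m * (residue p m r * (residue p m r - 1)) - (r + residue p m r * m) * (p - 1) := by
      rw [expo]
      unfold V11307.Q.ex
      generalize residue p m r = a
      have h2 : (2 : ℤ) * ((a * (a - 1) / 2 : ℕ) : ℤ) = a * (a - 1) := by
        have h3 : 2 * (a * (a - 1) / 2) = a * (a - 1) := by
          rcases a with _ | a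
          · simp
          · have : Even ((a + 1) * a) := by
              rw [mul_comm]; exact Nat.even_mul_succ_self a
            simp only [Nat.add_sub_cancel]
            exact Nat.two_mul_div_two_of_even this
        rcases a with _ | a
        · simp
        · have h4 := congrArg (fun n : ℕ => (n : ℤ)) h3
          simp only [Nat.cast_mul, Nat.add_sub_cancel] at h4
          push_cast at h4 ⊢
          linear_combination h4
      obtain ⟨t, ht⟩ := hp.odd_of_ne_two hp2
      have h5 : (2 : ℤ) * ((((r + a * m) * ((p - 1) / 2) : ℕ)) : ℤ) = (r + a * m) * (p - 1) := by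
        rw [show (p - 1) / 2 = t by omega, ht]
        push_cast
        ring
      linear_combination (m : ℤ) * h2 - h5
    constructor
    · intro h; linarith
    · rintro rfl; exact h1
  have key : ∀ f : ℤ, Holds p m r f ↔ f = expo p m r := by
    intro f
    constructor
    · intro hf
      have h0 := hf 0
      rw [qInt_eq hp] at h0
      exact unique_of_coeff hp hp2 hm hpm (V11307.Q.I_of_num_dvd hp.pos two_pos h0)
    · rintro rfl i
      rw [qInt_eq hp]
      exact (main_cong hp hp2 hm hpm i).num_dvd hp.pos
  refine ⟨⟨expo p m r, (key _).2 rfl, fun f hf => (key f).1 hf⟩, fun f => ?_⟩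
  rw [key, hval]

end Pool.Agent.Results.MP_20c673_nt.SignPower
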